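import Pool.Agent.N502.FR.Stm

/-!
# Project FR: one more summand changes a race by at most `1 / (1 + b)`
-/

set_option autoImplicit false

namespace Pool.Agent.N654.FR_JMP

open Finset Pool.Agent.N502.FR

theorem aux (K : Finset ℕ → Finset ℕ → ℝ) (hK : Race K) (b : ℕ) (hb : 1 ≤ b) (n : ℕ) :
    ∀ A B : Finset ℕ, A.card + B.card = n → Pos A → Pos B → 1 ∈ A → b ∉ B →
      K A (insert b B) ≤ K A B + 1 / (1 + (b : ℝ)) := by
  induction n using Nat.strong_induction_on with
  | _ n ih =>
    intro A B hn hA hB h1 hbB
    have hb0 : (1 : ℝ) ≤ b := by exact_mod_cast hb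
    have hc : (0 : ℝ) < 1 / (1 + (b : ℝ)) := by positivity
    have hbi : Pos (insert b B) := by
      intro x hx
      rcases mem_insert.1 hx with rfl | hx
      · exact hb
      · exact hB x hx
    have herA : ∀ a, Pos (A.erase a) := fun a x hx => hA x (mem_of_mem_erase hx)
    have herB : ∀ a, Pos (B.erase a) := fun a x hx => hB x (mem_of_mem_erase hx)
    have hAn : A.Nonempty := ⟨1, h1⟩
    have hcA : ∀ a ∈ A, (A.erase a).card + 1 = A.card := fun a ha => card_erase_add_one ha
    rcases B.eq_empty_or_nonempty with rfl | ⟨b', hb'⟩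
    · rw [hK.left A hA hAn, zero_add]
      by_cases h : ∃ a ∈ A, a ≠ 1
      · obtain ⟨a, ha, ha1⟩ := h
        have hs := hK.step A (insert b ∅) a b hA hbi ha (mem_insert_self _ _)
        rw [erase_insert (notMem_empty _), hK.left A hA hAn] at hs
        have h1' : 1 ∈ A.erase a := mem_erase.2 ⟨Ne.symm ha1, h1⟩
        have hcc := hcA a ha
        have hi := ih ((A.erase a).card + (∅ : Finset ℕ).card) (by omega) (A.erase a) ∅ rfl
          (herA a) hB h1' hbB
        rw [hK.left (A.erase a) (herA a) ⟨1, h1'⟩, zero_add] at hi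
        have ha0 : (1 : ℝ) ≤ a := by exact_mod_cast hA a ha
        by_contra hcon
        push Not at hcon
        have e1 := mul_lt_mul_of_pos_left hcon (by linarith : (0 : ℝ) < a + b)
        have e2 := mul_le_mul_of_nonneg_left hi (by linarith : (0 : ℝ) ≤ a)
        have e3 := mul_pos (by linarith : (0 : ℝ) < b) hc
        nlinarith
      · push Not at h
        have hA1 : A = {1} := eq_singleton_iff_unique_mem.2 ⟨h1, h⟩
        have hs := hK.step A (insert b ∅) 1 b hA hbi h1 (mem_insert_self _ _)
        rw [erase_insert (notMem_empty _), hK.left A hA hAn] at hs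
        have hE : A.erase 1 = ∅ := by rw [hA1]; rfl
        rw [hE, hK.right (insert b ∅) hbi ⟨b, mem_insert_self _ _⟩] at hs
        rw [le_div_iff₀ (by linarith)]
        push_cast at hs
        linarith
    · have hbb : b' ≠ b := fun h => hbB (h ▸ hb')
      have hE2 : (insert b B).erase b' = insert b (B.erase b') :=
        erase_insert_of_ne (Ne.symm hbb)
      have hb'0 : (1 : ℝ) ≤ b' := by exact_mod_cast hB b' hb'
      have hcB : (B.erase b').card + 1 = B.card := card_erase_add_one hb'
      have hi2 := ih (A.card + (B.erase b').card) (by omega) A (B.erase b') rfl hA (herB b') h1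
        (fun h => hbB (mem_of_mem_erase h))
      have e2 := mul_le_mul_of_nonneg_left hi2 (by linarith : (0 : ℝ) ≤ b')
      by_cases h : ∃ a ∈ A, a ≠ 1
      · obtain ⟨a, ha, ha1⟩ := h
        have ha0 : (1 : ℝ) ≤ a := by exact_mod_cast hA a ha
        have hs := hK.step A (insert b B) a b' hA hbi ha (mem_insert_of_mem hb')
        have hs2 := hK.step A B a b' hA hB ha hb'
        rw [hE2] at hs
        have hcc := hcA a ha
        have hi := ih ((A.erase a).card + B.card) (by omega) (A.erase a) B rfl
          (herA a) hB (mem_erase.2 ⟨Ne.symm ha1, h1⟩) hbB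
        have e1 := mul_le_mul_of_nonneg_left hi (by linarith : (0 : ℝ) ≤ a)
        by_contra hcon
        push Not at hcon
        have e3 := mul_lt_mul_of_pos_left hcon (by linarith : (0 : ℝ) < a + b')
        nlinarith
      · push Not at h
        have hA1 : A = {1} := eq_singleton_iff_unique_mem.2 ⟨h1, h⟩
        have hs := hK.step A (insert b B) 1 b' hA hbi h1 (mem_insert_of_mem hb')
        have hs2 := hK.step A B 1 b' hA hB h1 hb'
        have hE : A.erase 1 = ∅ := by rw [hA1]; rfl
        rw [hE2, hE, hK.right (insert b B) hbi ⟨b, mem_insert_self _ _⟩] at hs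
        rw [hE, hK.right B hB ⟨b', hb'⟩] at hs2
        push_cast at hs hs2
        by_contra hcon
        push Not at hcon
        have e3 := mul_lt_mul_of_pos_left hcon (by linarith : (0 : ℝ) < 1 + b')
        nlinarith

theorem main : Pool.Agent.N502.FR.S_JMP := by
  intro K hK A B b hA hB h1 hb hbB
  exact aux K hK b hb _ A B rfl hA hB h1 hbB

end Pool.Agent.N654.FR_JMP
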