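import Pool.Agent.N59.TT.Stm

/-!
# Project TT (helper59): a finite set of points with infinite orbits can be moved off itself
-/

set_option autoImplicit false

namespace Pool.Agent.N654.TT_NEU

open scoped Pointwise

theorem main : Pool.Agent.N59.TT.S_NEU := by
  intro Q X _ _ S hS
  classical
  by_contra hcon
  push Not at hcon
  obtain ⟨g, hg⟩ : ∃ g : X × X → Q, ∀ p : X × X, (∃ q : Q, q • p.1 = p.2) → g p • p.1 = p.2 := by
    refine ⟨fun p => if h : ∃ q : Q, q • p.1 = p.2 then h.choose else 1, ?_⟩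
    intro p hp
    simp only [dif_pos hp]
    exact hp.choose_spec
  have hcov : ⋃ p ∈ (S ×ˢ S).filter (fun p : X × X => ∃ q : Q, q • p.1 = p.2),
      g p • ((MulAction.stabilizer Q p.1 : Subgroup Q) : Set Q) = Set.univ := by
    rw [Set.eq_univ_iff_forall]
    intro q
    obtain ⟨s, hs, hqs⟩ := hcon q
    rw [Set.mem_iUnion₂]
    refine ⟨(s, q • s), ?_, ?_⟩
    · rw [Finset.mem_filter, Finset.mem_product]
      exact ⟨⟨hs, hqs⟩, q, rfl⟩
    · have h1 := hg (s, q • s) ⟨q, rfl⟩
      rw [mem_leftCoset_iff, SetLike.mem_coe, MulAction.mem_stabilizer_iff, mul_smul]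
      simp only at h1 ⊢
      rw [inv_smul_eq_iff]
      exact h1.symm
  obtain ⟨p, hp, hfin⟩ := Subgroup.exists_finiteIndex_of_leftCoset_cover hcov
  rw [Finset.mem_filter, Finset.mem_product] at hp
  apply hS p.1 hp.1.1
  have : Finite (Q ⧸ MulAction.stabilizer Q p.1) := inferInstance
  have h2 : Finite (MulAction.orbit Q p.1) :=
    Finite.of_equiv _ (MulAction.orbitEquivQuotientStabilizer Q p.1).symm
  exact Set.toFinite _

end Pool.Agent.N654.TT_NEU
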