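import Pool.Agent.N906.QP.Stm
import Pool.Agent.N954.KG_BASQ
import Pool.Agent.H691R3.Main2
import Pool.Agent.H691R3.SelGen
import Pool.Agent.W221.SelX

/-!
# Project QP (helper906): the known exponent for `q` points
-/

set_option autoImplicit false

namespace Pool.Agent.N654.QP

open NumberField IsDedekindDomain Finset Filter Topology Pool.Agent.H691R3 Pool.Agent.W223.AK
open Pool.Agent.N906.KG

variable {K : Type} [Field K] [NumberField K] {q : ℕ}

/-- the counting function of the starting library is the logarithm of the radical -/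
lemma ntc_eq {S : Finset (Pr K)} {α : Fin q → K × K} {x : K} {P : Fin q → Idl K}
    (hP : IsP S α x P) (hcop : ∀ l l', l ≠ l' → Cop (P l) (P l')) :
    NTc (↑S : Set (Pr K)) α x = tr P := by
  classical
  obtain ⟨hoff, hlam⟩ := hP
  have hsp : ∀ v, v ∈ sp P ↔ ∃ l, P l v ≠ 0 := by
    intro v
    unfold sp
    simp only [Finset.mem_biUnion, Finset.mem_univ, true_and, Finsupp.mem_support_iff]
  have hterm : ∀ v : Pr K, (∑ᶠ (_ : v ∉ (↑S : Set (Pr K))),
      ∑ l : Fin q, min (lamA (fv v) (aff x) (α l)) (Real.log (Nv v))) =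
      if v ∈ sp P then Real.log (Nv v) else 0 := by
    intro v
    have hlog := log_Nv_pos v
    rw [finsum_eq_if]
    by_cases hv : v ∈ S
    · have h1 : ¬ (v ∉ (↑S : Set (Pr K))) := by
        rw [not_not]; exact Finset.mem_coe.2 hv
      have h2 : v ∉ sp P := by
        rw [hsp]
        rintro ⟨l, hl⟩
        exact hl (hoff l v hv)
      rw [if_neg h1, if_neg h2]
    · have h1 : v ∉ (↑S : Set (Pr K)) := fun h => hv (Finset.mem_coe.1 h)
      rw [if_pos h1]
      have hval : ∀ l, lamA (fv v) (aff x) (α l) = (P l v : ℝ) * Real.log (Nv v) :=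
        fun l => hlam l v hv
      have hz : ∀ l, P l v = 0 → min (lamA (fv v) (aff x) (α l)) (Real.log (Nv v)) = 0 := by
        intro l hl
        rw [hval l, hl, Nat.cast_zero, zero_mul]
        exact min_eq_left hlog.le
      by_cases h2 : v ∈ sp P
      · rw [if_pos h2]
        obtain ⟨l, hl⟩ := (hsp v).1 h2
        rw [Finset.sum_eq_single l]
        · rw [hval l]
          refine min_eq_right ?_
          have h3 : (1 : ℝ) ≤ (P l v : ℝ) := by
            exact_mod_cast Nat.one_le_iff_ne_zero.2 hl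
          nlinarith
        · intro l' _ hne
          refine hz l' ?_
          rcases hcop l' l hne v with h | h
          · exact h
          · exact absurd h hl
        · intro h
          exact absurd (Finset.mem_univ l) h
      · rw [if_neg h2]
        refine Finset.sum_eq_zero fun l _ => hz l ?_
        by_contra hcon
        exact h2 ((hsp v).2 ⟨l, hcon⟩)
  unfold NTc
  rw [finsum_congr hterm, finsum_eq_sum_of_support_subset (s := sp P)]
  · unfold tr
    refine Finset.sum_congr rfl fun v hv => ?_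
    rw [if_pos hv]
  · intro v hv
    rw [Function.mem_support] at hv
    rw [Finset.mem_coe]
    by_contra hcon
    rw [if_neg hcon] at hv
    exact hv rfl

/-- BIGQ from a selection principle -/
lemma bigq_of (K : Type) [Field K] [NumberField K] (q : ℕ) (hq : 2 ≤ q) (κ₁ : ℝ) (hκ₁ : κ₁ ≤ 2)
    (hsel : ∀ κ : ℝ, κ ≤ κ₁ → Sel.{0} q κ (2 - κ)) : S_BIGQ K q κ₁ := by
  intro α S κ δ c hα hS hκ0 hκ hδ
  obtain ⟨C, hC, hmain⟩ := count_all2 hq (↑S : Set (Pr K)) S.finite_toSet α hα.1 hα.2 κ (2 - κ)
    hκ0 (by linarith) (hsel κ hκ) (max (c + 1) 0) (le_max_right _ _) δ hδ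
  refine ⟨C + 1, by linarith, ?_⟩
  intro X F hX hF
  obtain ⟨C', -, hbas⟩ := (Pool.Agent.N954.KG.basq K q α (by omega) hα).2 S hS
  have h1 := hmain X hX F ?_
  · refine h1.trans ?_
    have h2 : 0 ≤ Real.exp ((2 - κ + δ) * X) := (Real.exp_pos _).le
    nlinarith
  · intro x hx
    obtain ⟨h2, h3, P, hP, h4⟩ := hF x hx
    have hcop := ((hbas x h2).2.1 P hP).1
    refine ⟨?_, ?_, h3⟩
    · intro l
      exact Pool.Agent.N954.KG.of_wedge h2 l
    · rw [ntc_eq hP hcop]
      refine lt_of_le_of_lt h4 ?_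
      have : c < max (c + 1) 0 := lt_of_lt_of_le (by linarith) (le_max_left _ _)
      linarith

/-- BIGQ for `2 ≤ q` -/
theorem bigq (K : Type) [Field K] [NumberField K] (q : ℕ) (hq : 2 ≤ q) : S_BIGQ K q (6 / 7) := by
  refine bigq_of K q hq (6 / 7) (by norm_num) ?_
  intro κ hκ
  have h1 := sel_all.{0} hq κ
  rwa [max_eq_left (by linarith)] at h1

/-- BIGQ for three points -/
theorem bigq3 (K : Type) [Field K] [NumberField K] : S_BIGQ K 3 1 := by
  refine bigq_of K 3 (by norm_num) 1 (by norm_num) ?_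
  intro κ hκ
  exact Pool.Agent.W221.Exc.sel_below_one (by norm_num)
    (Pool.Agent.W221.Exc.sel_three_one 1 le_rfl) hκ

end Pool.Agent.N654.QP
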