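import Pool.Agent.N841.WS.Stm

set_option autoImplicit false

/-!
# Project WS (helper841), part TREE

A compact abelian group with uncountably many characters has at least `2 ^ (number of the characters)` elements:
there are characters `χ i` and elements `h i`, `i` in a well order, with `χ j (h i) = 1` for `j < i` and
`χ i (h i) ≠ 1`, so the tree of the restrictions `(χ j x) j < i` splits at every node and is closed at limits.
-/

open Cardinal Topology TopologicalSpace Set Filter

namespace N654.WSTREE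

open Pool.Agent.N841.WS

section seq

variable {C : Type} [AddCommGroup C] [TopologicalSpace C]

/-- the sequence of characters and elements -/
theorem exists_seq (h1 : ∀ x : C, x ≠ 0 → ∃ χ : Ch C, χ.1 x ≠ 1)
    (h2 : ∀ Y : Set (Ch C), (∀ x : C, x ≠ 0 → ∃ χ ∈ Y, χ.1 x ≠ 1) → #(Ch C) ≤ max #Y ℵ₀)
    (h3 : ℵ₀ < #(Ch C)) : ∃ (χ : (#(Ch C)).ord.ToType → Ch C) (h : (#(Ch C)).ord.ToType → C),
      (∀ i j, j < i → (χ j).1 (h i) = 1) ∧ ∀ i, (χ i).1 (h i) ≠ 1 := by
  classical
  have hne : Nonempty (Ch C × C) := by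
    have : Nonempty (Ch C) := by
      rw [← Cardinal.mk_ne_zero_iff]
      intro h0
      rw [h0] at h3
      exact absurd h3 (by simp)
    exact ⟨(Classical.choice this, 0)⟩
  let I : Type := (#(Ch C)).ord.ToType
  let good (i : I) (prev : ∀ j : I, j < i → Ch C × C) (p : Ch C × C) : Prop :=
    (∀ (j : I) (hj : j < i), (prev j hj).1.1 p.2 = 1) ∧ p.1.1 p.2 ≠ 1
  let step (i : I) (prev : ∀ j : I, j < i → Ch C × C) : Ch C × C :=
    if hex : ∃ p, good i prev p then hex.choose else Classical.choice hne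
  have hwf : WellFounded ((· < ·) : I → I → Prop) := wellFounded_lt
  let P : I → Ch C × C := hwf.fix step
  have hP : ∀ i, P i = step i (fun j _ => P j) := fun i => hwf.fix_eq step i
  have hgood : ∀ i, good i (fun j _ => P j) (P i) := by
    intro i
    have hex : ∃ p, good i (fun j _ => P j) p := by
      let Y : Set (Ch C) := (fun j => (P j).1) '' (Set.Iio i)
      have hY : #Y < #(Ch C) := lt_of_le_of_lt Cardinal.mk_image_le (Cardinal.mk_Iio_toType_ord_lt i)
      have hns : ¬ ∀ x : C, x ≠ 0 → ∃ χ ∈ Y, χ.1 x ≠ 1 := by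
        intro hs
        exact absurd (h2 Y hs) (not_le.2 (max_lt hY h3))
      push Not at hns
      obtain ⟨x, hx0, hx⟩ := hns
      obtain ⟨ψ, hψ⟩ := h1 x hx0
      exact ⟨(ψ, x), fun j hj => hx _ ⟨j, hj, rfl⟩, hψ⟩
    have h4 : P i = hex.choose := by
      rw [hP i]
      exact dif_pos hex
    rw [h4]
    exact hex.choose_spec
  exact ⟨fun i => (P i).1, fun i => (P i).2, fun i j hj => (hgood i).1 j hj, fun i => (hgood i).2⟩

end seq

variable {C : Type} [AddCommGroup C] [TopologicalSpace C] [IsTopologicalAddGroup C] [CompactSpace C]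
  [T2Space C]

theorem ch_zero (χ : Ch C) : χ.1 0 = 1 := by
  have h := χ.2.2 0 0
  rw [add_zero] at h
  exact (mul_eq_left (a := χ.1 0)).1 h.symm

/-- compactness -/
theorem comp {I : Type} [LinearOrder I] (χ : I → Ch C) (e : I → Circle) (S : Set I)
    (hS : ∀ i ∈ S, ∃ x, ∀ k ≤ i, (χ k).1 x = e k) : ∃ x, ∀ k ∈ S, (χ k).1 x = e k := by
  classical
  rcases S.eq_empty_or_nonempty with hE | ⟨i₀, hi₀⟩
  · exact ⟨0, fun k hk => by rw [hE] at hk; exact absurd hk (Set.notMem_empty k)⟩
  · have : Nonempty S := ⟨⟨i₀, hi₀⟩⟩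
    let F : S → Set C := fun i => {x | ∀ k ≤ i.1, (χ k).1 x = e k}
    have hcl : ∀ i, IsClosed (F i) := by
      intro i
      have : F i = ⋂ k, ⋂ (_ : k ≤ i.1), {x | (χ k).1 x = e k} := by
        ext x
        simp [F]
      rw [this]
      exact isClosed_iInter fun k => isClosed_iInter fun _ => isClosed_eq (χ k).2.1 continuous_const
    have hdir : Directed (· ⊇ ·) F := by
      intro i j
      rcases le_total i.1 j.1 with h | h
      · exact ⟨j, fun x hx k hk => hx k (hk.trans h), fun x hx => hx⟩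
      · exact ⟨i, fun x hx => hx, fun x hx k hk => hx k (hk.trans h)⟩
    obtain ⟨x, hx⟩ := IsCompact.nonempty_iInter_of_directed_nonempty_isCompact_isClosed F hdir
      (fun i => hS i.1 i.2) (fun i => (hcl i).isCompact) hcl
    rw [Set.mem_iInter] at hx
    exact ⟨x, fun k hk => hx ⟨k, hk⟩ k le_rfl⟩

/-- the branches of the tree -/
theorem branches {I : Type} [LinearOrder I] [WellFoundedLT I] (χ : I → Ch C) (h : I → C)
    (h1 : ∀ i j, j < i → (χ j).1 (h i) = 1) (h2 : ∀ i, (χ i).1 (h i) ≠ 1) :
    ∃ x : Set I → C, Function.Injective x := by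
  classical
  -- an element with given values below `i`
  let w (i : I) (p : ∀ j : I, j < i → Circle) : C :=
    if hex : ∃ x : C, ∀ (j : I) (hj : j < i), (χ j).1 x = p j hj then hex.choose else 0
  let step (f : Set I) (i : I) (p : ∀ j : I, j < i → Circle) : Circle :=
    (χ i).1 (w i p + if i ∈ f then h i else 0)
  have hwf : WellFounded ((· < ·) : I → I → Prop) := wellFounded_lt
  let e (f : Set I) : I → Circle := hwf.fix (step f)
  have he : ∀ f i, e f i = step f i (fun j _ => e f j) := fun f i => hwf.fix_eq (step f) i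
  -- all the initial segments are realised
  have hQ : ∀ f : Set I, ∀ i, ∃ x, ∀ k ≤ i, (χ k).1 x = e f k := by
    intro f i
    induction i using hwf.induction with
    | _ i ih =>
      have hex : ∃ x : C, ∀ (j : I) (_ : j < i), (χ j).1 x = e f j := comp χ (e f) (Set.Iio i) ih
      have hw : ∀ j, j < i → (χ j).1 (w i (fun j _ => e f j)) = e f j := by
        have h3 : w i (fun j _ => e f j) = hex.choose := dif_pos hex
        rw [h3]
        exact fun j hj => hex.choose_spec j hj
      refine ⟨w i (fun j _ => e f j) + if i ∈ f then h i else 0, ?_⟩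
      intro k hk
      rcases lt_or_eq_of_le hk with hk | rfl
      · rw [(χ k).2.2, hw k hk]
        split_ifs
        · rw [h1 i k hk, mul_one]
        · rw [ch_zero, mul_one]
      · rw [he f k]
  have hx : ∀ f : Set I, ∃ x, ∀ k ∈ (Set.univ : Set I), (χ k).1 x = e f k := fun f =>
    comp χ (e f) Set.univ fun i _ => hQ f i
  choose x hx using hx
  refine ⟨x, ?_⟩
  intro f g hfg
  by_contra hne
  -- the first difference
  have hex : ∃ i, ¬ (i ∈ f ↔ i ∈ g) := by
    by_contra hcon
    push Not at hcon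
    exact hne (Set.ext hcon)
  obtain ⟨i, hi, hmin⟩ := hwf.has_min {i | ¬ (i ∈ f ↔ i ∈ g)} hex
  have hbelow : ∀ j, j < i → e f j = e g j := by
    intro j hj
    rw [← hx f j (Set.mem_univ j), ← hx g j (Set.mem_univ j), hfg]
  have hp : (fun (j : I) (_ : j < i) => e f j) = fun (j : I) (_ : j < i) => e g j :=
    funext fun j => funext fun hj => hbelow j hj
  have hi2 : e f i = e g i := by
    rw [← hx f i (Set.mem_univ i), ← hx g i (Set.mem_univ i), hfg]
  rw [he f i, he g i, hp] at hi2
  have hi3 : (χ i).1 (if i ∈ f then h i else 0) = (χ i).1 (if i ∈ g then h i else 0) := by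
    have h4 : (χ i).1 (w i (fun j _ => e g j) + if i ∈ f then h i else 0) =
        (χ i).1 (w i (fun j _ => e g j) + if i ∈ g then h i else 0) := hi2
    rw [(χ i).2.2, (χ i).2.2] at h4
    exact mul_left_cancel h4
  have hi' : ¬ (i ∈ f ↔ i ∈ g) := hi
  by_cases hf : i ∈ f
  · by_cases hg : i ∈ g
    · exact hi' ⟨fun _ => hg, fun _ => hf⟩
    · rw [if_pos hf, if_neg hg, ch_zero] at hi3
      exact h2 i hi3
  · by_cases hg : i ∈ g
    · rw [if_neg hf, if_pos hg, ch_zero] at hi3
      exact h2 i hi3.symm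
    · exact hi' ⟨fun h => absurd h hf, fun h => absurd h hg⟩

theorem t_TREE : S_TREE := by
  intro C _ _ _ _ _ h1 h2 h3
  obtain ⟨χ, h, k1, k2⟩ := exists_seq h1 h2 h3
  obtain ⟨x, hx⟩ := branches χ h k1 k2
  have h4 := Cardinal.mk_le_of_injective hx
  rw [Cardinal.mk_set, Cardinal.mk_ord_toType] at h4
  exact h4

end N654.WSTREE
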